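import Pool.Agent.N463.MI.Stm

/-!
# Project MI (helper463), part G02: Euler's expansion

Written by helper681.
-/

set_option autoImplicit false

namespace Pool.Agent.N681.MI

open Finset Polynomial
open Pool.Agent.N463.MI

theorem tri (J : ℕ) : (J + 1) * (J + 2) / 2 = J * (J + 1) / 2 + (J + 1) := by
  have h : (J + 1) * (J + 2) = J * (J + 1) + 2 * (J + 1) := by ring
  rw [h, Nat.add_mul_div_left _ _ (by norm_num)]

/-- `∏_{j < m ≤ J} (1 - X^m)` -/
noncomputable def R (J j : ℕ) : ℤ[X] := ∏ i ∈ Ico j J, (1 - X ^ (i + 1))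

theorem R_self (J : ℕ) : R J J = 1 := by simp [R]

theorem R_succ_top {J j : ℕ} (h : j ≤ J) : R (J + 1) j = R J j * (1 - X ^ (J + 1)) := by
  unfold R
  rw [Finset.prod_Ico_succ_top h]

theorem R_bot {J j : ℕ} (h : j < J) : R J j = (1 - X ^ (j + 1)) * R J (j + 1) := by
  unfold R
  rw [Finset.prod_eq_prod_Ico_succ_bot h]

/-- the partial sums of Euler's expansion -/
noncomputable def S (a : ℤ) (J i : ℕ) : ℤ[X] :=
  ∑ j ∈ range (J + 1), C (a ^ j) * X ^ (j * (j + 1) / 2 + i * j) * R J j

theorem pj_eq (a : ℤ) (J : ℕ) : pj a J = S a J 0 := by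
  induction J with
  | zero => simp [pj, S, R]
  | succ J ih =>
    have e1 : pj a (J + 1) = (1 - X ^ (J + 1)) * pj a J +
      C (a ^ (J + 1)) * X ^ ((J + 1) * (J + 2) / 2) := rfl
    rw [e1, ih]
    unfold S
    rw [Finset.sum_range_succ _ (J + 1), R_self, Finset.mul_sum]
    congr 1
    · apply Finset.sum_congr rfl
      intro j hj
      rw [R_succ_top (by have := Finset.mem_range.1 hj; omega)]
      ring
    · rw [zero_mul, add_zero, mul_one]

theorem S_rec (a : ℤ) (J i : ℕ) : S a J i = S a J (i + 1) + C a * X ^ (i + 1) *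
    (S a J (i + 1) - C (a ^ J) * X ^ (J * (J + 1) / 2 + (i + 1) * J)) := by
  have h1 : S a J i - S a J (i + 1) = ∑ j ∈ range (J + 1),
      C (a ^ j) * X ^ (j * (j + 1) / 2 + i * j) * ((1 - X ^ j) * R J j) := by
    unfold S
    rw [← Finset.sum_sub_distrib]
    apply Finset.sum_congr rfl
    intro j _
    rw [show j * (j + 1) / 2 + (i + 1) * j = j * (j + 1) / 2 + i * j + j by ring,
      pow_add _ (j * (j + 1) / 2 + i * j) j]
    ring
  have h2 : S a J i - S a J (i + 1) = ∑ j ∈ range J,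
      C (a ^ (j + 1)) * X ^ ((j + 1) * (j + 2) / 2 + i * (j + 1)) * R J j := by
    rw [h1, Finset.sum_range_succ']
    simp only [pow_zero, sub_self, zero_mul, mul_zero, add_zero]
    apply Finset.sum_congr rfl
    intro j hj
    rw [R_bot (Finset.mem_range.1 hj)]
  have h3 : C a * X ^ (i + 1) *
      (S a J (i + 1) - C (a ^ J) * X ^ (J * (J + 1) / 2 + (i + 1) * J)) = ∑ j ∈ range J,
      C (a ^ (j + 1)) * X ^ ((j + 1) * (j + 2) / 2 + i * (j + 1)) * R J j := by
    unfold S
    rw [Finset.sum_range_succ, R_self, mul_one, add_sub_cancel_right, Finset.mul_sum]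
    apply Finset.sum_congr rfl
    intro j _
    rw [tri, show j * (j + 1) / 2 + (j + 1) + i * (j + 1) =
      (i + 1) + (j * (j + 1) / 2 + (i + 1) * j) by ring, pow_add, pow_succ a j, C_mul]
    ring
  rw [h3, ← h2]
  ring

/-- `∏_{i < k ≤ L} (1 + a X^k)` -/
noncomputable def A (a : ℤ) (L i : ℕ) : ℤ[X] := ∏ k ∈ Ico i L, (1 + C a * X ^ (k + 1))

theorem main_dvd (a : ℤ) (J L : ℕ) (e : ℕ) (he1 : e ≤ (J + 1) * (J + 2) / 2) (he2 : e ≤ L + 1) :
    ∀ d i, i + d = L → X ^ e ∣ R J 0 * A a L i - S a J i := by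
  intro d
  induction d with
  | zero =>
    intro i hi
    rw [add_zero] at hi
    subst hi
    have hA : A a i i = 1 := by simp [A]
    rw [hA, mul_one]
    unfold S
    rw [Finset.sum_range_succ']
    simp only [pow_zero, zero_mul, mul_zero, add_zero, Nat.zero_div, map_one, one_mul]
    rw [sub_add_eq_sub_sub, sub_right_comm, sub_self, zero_sub, dvd_neg]
    apply Finset.dvd_sum
    intro j _
    apply Dvd.dvd.mul_right
    apply Dvd.dvd.mul_left
    apply pow_dvd_pow
    have h1 := tri j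
    have h2 : i * (j + 1) = i * j + i := by ring
    rw [h1, h2]
    omega
  | succ d ih =>
    intro i hi
    have h := ih (i + 1) (by omega)
    have hA : A a L i = (1 + C a * X ^ (i + 1)) * A a L (i + 1) := by
      unfold A
      rw [Finset.prod_eq_prod_Ico_succ_bot (by omega)]
    have e1 : R J 0 * A a L i - S a J i = (1 + C a * X ^ (i + 1)) *
        (R J 0 * A a L (i + 1) - S a J (i + 1)) +
        C a * C (a ^ J) * X ^ ((i + 1) + (J * (J + 1) / 2 + (i + 1) * J)) := by
      rw [hA, S_rec a J i, pow_add _ (i + 1)]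
      ring
    rw [e1]
    apply dvd_add (Dvd.dvd.mul_left h _)
    apply Dvd.dvd.mul_left
    apply pow_dvd_pow
    have h1 := tri J
    have h2 : (i + 1) * J = i * J + J := by ring
    rw [h2]
    omega

/-- **G02** -/
theorem t_G02 : G02 := by
  intro a J L n hn hL
  have h := main_dvd a J L (n + 1) hn (by omega) L 0 (by omega)
  have h2 : R J 0 = ∏ i ∈ range J, (1 - X ^ (i + 1) : ℤ[X]) := by
    unfold R
    rw [Finset.range_eq_Ico]
  have h3 : A a L 0 = dpoly a L := by
    unfold A dpoly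
    rw [Finset.range_eq_Ico]
  rw [h2, h3, ← pj_eq] at h
  have h4 := (Polynomial.X_pow_dvd_iff.1 h) n (by omega)
  rw [Polynomial.coeff_sub] at h4
  linarith

end Pool.Agent.N681.MI
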